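import Pool.Agent.X202.RA.Fin

/-!
# Differentiable functions on compact plane sets are uniform limits of rational functions

Let `X` be a compact subset of the plane and `f : X → ℂ` a function which has a complex derivative
(limit of the difference quotients along `X`) at every point of `X`; nothing is assumed about the
derivative.  Then `f` is a uniform limit on `X` of rational functions with poles off `X`.

Proof outline (files `Pool/Agent/X202/RA/*`); an argument of Looman-Menchoff type for Vitushkin's
localisation operators.

1. `Kern`: Cauchy transforms of bounded measurable densities with bounded support; the integral of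
   `1 / |z - w|` over a small set is uniformly small. `Rat`: Cauchy transforms of densities which
   vanish on `X` belong to `R(X)`. `Grid`: partitions of unity at scale `s`.
2. `Loc`: `T ψ = f ψ - π⁻¹ C (1_X f ∂̄ψ)` for test functions `ψ`; modulo `R(X)` one may subtract an
   affine function from `f`. Let `B` be the set of points near which some `T ψ` is not in `R(X)`.
   `B` is a closed subset of `X`, and `T ψ` is in `R(X)` if the support of `ψ` misses `B`.
3. `Fin`: if `B` is not empty then, by Baire's theorem, there are a disc `U` centred at a point of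
   `B` and a constant `n` with `|f w - f z| ≤ n |w - z|` for `z ∈ B ∩ U`, `w ∈ X`.
4. `Core`, `Main`: for `ψ` supported in `U` cut `ψ` into pieces at scale `s` and, on the pieces which
   meet `B`, subtract the linearisation of `f` at a point of `B` at which `f` is well approximated
   at scale `s`, if there is one, and otherwise the value of `f` at a point of `B`. The other pieces
   cover a set of small measure only. So `T ψ` is in `R(X)`, a contradiction; hence `B` is empty and
   `f`, which is `T ψ` for `ψ = 1` near `X`, is in `R(X)`.
-/

set_option autoImplicit false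

open Filter Topology

namespace Pool.Agent.Results.MP_dbc030_an.DifferentiableInR

/-- `R_0(X)`: the restrictions to `X` of the rational functions without poles on `X`. -/
def R0 (X : Set ℂ) : Set C(X, ℂ) :=
  {r | ∃ p q : Polynomial ℂ, (∀ z ∈ X, q.eval z ≠ 0) ∧
    ∀ z : X, r z = p.eval (z : ℂ) / q.eval (z : ℂ)}

/-- `R(X)`: the uniform limits on `X` of the functions of `R_0(X)`. -/
def R (X : Set ℂ) : Set C(X, ℂ) :=
  {f | ∀ ε : ℝ, 0 < ε → ∃ r ∈ R0 X, ∀ z : X, ‖f z - r z‖ ≤ ε}

/-- `f` is differentiable at `a` (along `X`), with derivative `l`. -/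
def HasDeriv {X : Set ℂ} (f : C(X, ℂ)) (a : X) (l : ℂ) : Prop :=
  Tendsto (fun z : X => (f z - f a) / ((z : ℂ) - a)) (𝓝[≠] a) (𝓝 l)

/-- `D^(1)(X)`: the functions which are differentiable on `X` with a continuous derivative. -/
def D1 (X : Set ℂ) : Set C(X, ℂ) :=
  {f | ∃ f' : C(X, ℂ), ∀ a : X, HasDeriv f a (f' a)}

theorem result :
    (∀ X : Set ℂ, X.Nonempty → IsCompact X → Preperfect X → D1 X ⊆ R X) ∧
    (∀ X : Set ℂ, IsCompact X → ∀ f : C(X, ℂ), (∀ a : X, ∃ l : ℂ, HasDeriv f a l) → f ∈ R X) := by
  have key : ∀ X : Set ℂ, IsCompact X → ∀ f : C(X, ℂ),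
      (∀ a : X, ∃ l : ℂ, HasDeriv f a l) → f ∈ R X :=
    fun X hX f hf => Pool.Agent.X202.RA.main hX f hf
  exact ⟨fun X _ hX _ f hf => key X hX f fun a => ⟨_, hf.choose_spec a⟩, key⟩

end Pool.Agent.Results.MP_dbc030_an.DifferentiableInR
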